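import Pool.Agent.H990R2.CTFam
import Pool.Agent.Y307.Prof.Cont

/-!
Continuous-time random walks on a finite abelian group with a small non-reversible drift.
-/

set_option autoImplicit false

open Finset Filter Topology Pool.Agent

namespace Pool.Agent.X127.NR

noncomputable section

section gen

variable {G : Type} [AddCommGroup G] [Fintype G] [DecidableEq G]

/-- uniform steps in `S` -/
def stepM (S : Finset G) : Matrix G G ℝ := fun x y => if y - x ∈ S then 1 / (S.card : ℝ) else 0

/-- deterministic shift by `b` -/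
def shiftM (b : G) : Matrix G G ℝ := fun x y => if y = x + b then 1 else 0

/-- generator: jumps uniform in `S` at rate one and shifts by `b` at rate `a` -/
def gen (S : Finset G) (a : ℝ) (b : G) : Matrix G G ℝ :=
  (stepM S - 1) + a • (shiftM b - 1)

theorem stepM_mulVec (S : Finset G) (f : G → ℝ) : (stepM S).mulVec f = Helper394.U S f := by
  ext x
  rw [Helper394.U_apply]
  simp only [Matrix.mulVec, dotProduct, stepM, ite_mul, zero_mul]
  rw [← Finset.sum_filter, Finset.sum_div]
  refine Finset.sum_bij' (fun y _ => y - x) (fun s _ => x + s) ?_ ?_ ?_ ?_ ?_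
  · intro y hy; simpa using hy
  · intro s hs; simpa using hs
  · intro y _; simp
  · intro s _; simp
  · intro y _
    simp only [add_sub_cancel]
    ring

theorem comm (S : Finset G) (b : G) : stepM S * shiftM b = shiftM b * stepM S := by
  ext x y
  rw [Matrix.mul_apply, Matrix.mul_apply]
  have h1 : ∑ z, stepM S x z * shiftM b z y = stepM S x (y - b) := by
    rw [Finset.sum_eq_single (y - b)]
    · simp [shiftM]
    · intro z _ hz
      have : y ≠ z + b := fun h => hz (by rw [h]; abel)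
      simp [shiftM, this]
    · simp
  have h2 : ∑ z, shiftM b x z * stepM S z y = stepM S (x + b) y := by
    rw [Finset.sum_eq_single (x + b)]
    · simp [shiftM]
    · intro z _ hz
      simp [shiftM, hz]
    · simp
  rw [h1, h2]
  have : y - b - x = y - (x + b) := by abel
  simp only [stepM, this]

theorem exp_gen (S : Finset G) (a : ℝ) (b : G) (r : ℝ) :
    NormedSpace.exp (r • gen S a b) =
      H990R2.CT.H (shiftM b) (a * r) * H990R2.CT.H (stepM S) r := by
  have h1 : r • gen S a b = (a * r) • (shiftM b - 1) + r • (stepM S - 1) := by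
    rw [gen, smul_add, smul_smul, mul_comm r a, add_comm]
  rw [h1, Matrix.exp_add_of_commute]
  · rfl
  · have hc : Commute (shiftM b - 1) (stepM S - 1) := by
      have h2 : Commute (shiftM b) (stepM S) := (comm S b).symm
      exact (h2.sub_right (Commute.one_right _)).sub_left (Commute.one_left _)
    exact (hc.smul_right r).smul_left (a * r)

theorem shiftM_row (b x : G) : ∑ y, shiftM b x y = 1 := by
  simp [shiftM]

theorem shiftM_nonneg (b x y : G) : 0 ≤ shiftM b x y := by
  unfold shiftM; split_ifs <;> norm_num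

theorem stepM_nonneg (S : Finset G) (x y : G) : 0 ≤ stepM S x y := by
  unfold stepM; split_ifs <;> positivity

theorem H_shift_diag (b x : G) {s : ℝ} (hs : 0 ≤ s) :
    Real.exp (-s) ≤ H990R2.CT.H (shiftM b) s x x := by
  have h := H990R2.CT.H_hasSum (shiftM b) s x x
  have hpow : ∀ k x y, 0 ≤ (shiftM b ^ k) x y := by
    intro k
    induction k with
    | zero => intro x y; rw [pow_zero, Matrix.one_apply]; split_ifs <;> norm_num
    | succ k ih =>
      intro x y
      rw [pow_succ', Matrix.mul_apply]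
      exact Finset.sum_nonneg fun w _ => mul_nonneg (shiftM_nonneg _ _ _) (ih _ _)
  have h0 := le_hasSum h 0 (fun k _ => mul_nonneg (by positivity) (hpow k x x))
  simpa using h0

/-- translation invariance of the powers -/
theorem pow_inv {A : Matrix G G ℝ} (hA : ∀ x y z, A (x + z) (y + z) = A x y) (k : ℕ) (x y z : G) :
    (A ^ k) (x + z) (y + z) = (A ^ k) x y := by
  induction k generalizing x y with
  | zero => simp [Matrix.one_apply]
  | succ k ih =>
    rw [pow_succ, Matrix.mul_apply, Matrix.mul_apply,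
      ← Equiv.sum_comp (Equiv.addRight z) (fun w => (A ^ k) (x + z) w * A w (y + z))]
    refine Finset.sum_congr rfl fun w _ => ?_
    simp only [Equiv.coe_addRight]
    rw [ih, hA]

theorem exp_inv {A : Matrix G G ℝ} (hA : ∀ x y z, A (x + z) (y + z) = A x y) (x y z : G) :
    (NormedSpace.exp A) (x + z) (y + z) = (NormedSpace.exp A) x y := by
  refine (H990R2.CT.hasSum_exp_apply A (x + z) (y + z)).unique ?_
  refine (H990R2.CT.hasSum_congr1 fun k => ?_).mpr (H990R2.CT.hasSum_exp_apply A x y)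
  rw [pow_inv hA]

theorem gen_inv (S : Finset G) (a : ℝ) (b : G) (x y z : G) :
    gen S a b (x + z) (y + z) = gen S a b x y := by
  have e1 : y + z - (x + z) = y - x := by abel
  have e2 : (y + z = x + z + b) ↔ (y = x + b) := by
    constructor
    · intro h
      have : y + z = (x + b) + z := by rw [h]; abel
      exact add_right_cancel this
    · intro h; rw [h]; abel
  simp only [gen, stepM, shiftM, Matrix.add_apply, Matrix.sub_apply, Matrix.smul_apply,
    Matrix.one_apply, e1, e2, add_left_inj]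

theorem law_inv (S : Finset G) (a : ℝ) (b : G) (r : ℝ) (x y : G) :
    (NormedSpace.exp (r • gen S a b)) x y = (NormedSpace.exp (r • gen S a b)) 0 (y - x) := by
  have h := exp_inv (A := r • gen S a b) (fun x y z => by
    rw [Matrix.smul_apply, Matrix.smul_apply, gen_inv]) 0 (y - x) x
  rw [zero_add, sub_add_cancel] at h
  exact h

theorem tv_inv (S : Finset G) (a : ℝ) (b : G) (r c : ℝ) (x : G) :
    ∑ y, |(NormedSpace.exp (r • gen S a b)) x y - c| =
      ∑ y, |(NormedSpace.exp (r • gen S a b)) 0 y - c| := by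
  rw [← Equiv.sum_comp (Equiv.subRight x)
    (fun y => |(NormedSpace.exp (r • gen S a b)) 0 y - c|)]
  refine Finset.sum_congr rfl fun y _ => ?_
  rw [law_inv]
  rfl

end gen

section walk

variable {G : Type} [AddCommGroup G] [Fintype G] [DecidableEq G] {S : Finset G} {R M : ℕ}
  {w : ℝ} {T : ℕ}

theorem row_step (hB : Helper394.Bad S T) (x : G) : ∑ y, stepM S x y = 1 :=
  H990R2.CT.P_row hB (stepM_mulVec S) x

theorem law_row (hB : Helper394.Bad S T) (a : ℝ) (b : G) (r : ℝ) (x : G) :
    ∑ y, (NormedSpace.exp (r • gen S a b)) x y = 1 := by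
  rw [exp_gen]
  simp only [Matrix.mul_apply]
  rw [Finset.sum_comm]
  simp only [← Finset.mul_sum, H990R2.CT.H_row (row_step hB), mul_one,
    H990R2.CT.H_row (shiftM_row b)]

/-- lower bound for a fixed set -/
theorem ct_low_set {P : Matrix G G ℝ} (hM : 1 ≤ M) (hw0 : 0 < w) (hw1 : w < 1)
    (hP : ∀ f : G → ℝ, P.mulVec f = Helper394.U S f) {r : ℝ} (hr : 0 ≤ r) (E : Finset G)
    (hl : ∀ j ≤ R, (1 - 1 / (M : ℝ)) * w ^ j ≤
      (Helper394.U S ^ j) (fun x => if x ∈ E then (1 : ℝ) else 0) 0) :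
    (1 - 1 / (M : ℝ)) * (Real.exp (-(r / (1 / (1 - w)))) - (1 / 2) ^ R * Real.exp r) ≤
      (H990R2.CT.H P r).mulVec (fun y => if y ∈ E then (1 : ℝ) else 0) 0 := by
  have hM' : (1 : ℝ) ≤ M := by exact_mod_cast hM
  have hM1 : 0 ≤ 1 - 1 / (M : ℝ) := by
    rw [sub_nonneg, div_le_one (by linarith)]
    exact hM'
  have h1 := H990R2.CT.H_mulVec_hasSum P r (fun y => if y ∈ E then (1 : ℝ) else 0) 0
  have h2 := H990R2.CT.poisson_hasSum r w
  have h3 := H990R2.CT.poisson_hasSum r 2
  have h4 := (h2.sub (h3.mul_left ((1 / 2 : ℝ) ^ R))).mul_left (1 - 1 / (M : ℝ))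
  have h5 : (1 - 1 / (M : ℝ)) * (Real.exp ((w - 1) * r) -
      (1 / 2 : ℝ) ^ R * Real.exp ((2 - 1) * r)) ≤
      (H990R2.CT.H P r).mulVec (fun y => if y ∈ E then (1 : ℝ) else 0) 0 := by
    refine hasSum_le (fun k => ?_) h4 h1
    have e : (1 - 1 / (M : ℝ)) * (Real.exp (-r) * (r ^ k / k.factorial) * w ^ k -
        (1 / 2 : ℝ) ^ R * (Real.exp (-r) * (r ^ k / k.factorial) * 2 ^ k)) =
        Real.exp (-r) * (r ^ k / k.factorial) *
          ((1 - 1 / (M : ℝ)) * (w ^ k - (1 / 2 : ℝ) ^ R * 2 ^ k)) := by ring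
    rw [e]
    apply mul_le_mul_of_nonneg_left _ (by positivity)
    rw [Helper394.mat_pow hP]
    rcases le_total k R with hkR | hkR
    · refine le_trans ?_ (hl k hkR)
      apply mul_le_mul_of_nonneg_left _ hM1
      have : (0 : ℝ) ≤ (1 / 2) ^ R * 2 ^ k := by positivity
      linarith
    · have h6 : (0 : ℝ) ≤ (Helper394.U S ^ k) (fun z => if z ∈ E then (1 : ℝ) else 0) 0 :=
        Helper394.U_pow_nonneg S k (fun z => by split_ifs <;> norm_num) 0
      refine le_trans ?_ h6
      apply mul_nonpos_of_nonneg_of_nonpos hM1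
      have h7 : (1 : ℝ) ≤ (1 / 2) ^ R * 2 ^ k := by
        calc (1 : ℝ) = (1 / 2) ^ R * 2 ^ R := by rw [← mul_pow]; norm_num
          _ ≤ (1 / 2) ^ R * 2 ^ k := by gcongr; norm_num
      have h8 : w ^ k ≤ 1 := pow_le_one₀ hw0.le hw1.le
      linarith
  have e1 : (w - 1) * r = -(r / (1 / (1 - w))) := by
    rw [div_div_eq_mul_div, div_one]
    ring
  have e2 : ((2 : ℝ) - 1) * r = r := by ring
  rw [e1, e2] at h5
  exact h5

/-- lower bound for the perturbed walk -/
theorem low (h : Y307.Prof.Expo S R M w) (hM : 2 ≤ M) (hw0 : 0 < w) (hw1 : w < 1)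
    (hB : Helper394.Bad S T) {a : ℝ} (ha : 0 ≤ a) (b : G) {r : ℝ} (hr : 0 ≤ r) :
    (1 - 1 / (M : ℝ)) * (Real.exp (-(r / (1 / (1 - w)))) - ((1 / 2) ^ R + 2 * a) * Real.exp r) -
      1 / (M : ℝ) ≤
      (1 / 2 : ℝ) * ∑ y, |(NormedSpace.exp (r • gen S a b)) 0 y - 1 / (Fintype.card G : ℝ)| := by
  obtain ⟨E, hE, hl⟩ := h.lower
  have hM' : (2 : ℝ) ≤ M := by exact_mod_cast hM
  refine Y307.Prof.tv_low _ (law_row hB a b r 0) M (by omega) E hE _ ?_
  have h1 := ct_low_set (by omega : 1 ≤ M) hw0 hw1 (stepM_mulVec S) hr E hl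
  set ind : G → ℝ := fun y => if y ∈ E then (1 : ℝ) else 0 with hind
  have hind0 : ∀ y, 0 ≤ ind y := fun y => by rw [hind]; dsimp only; split_ifs <;> norm_num
  have hind1 : ∀ y, ind y ≤ 1 := fun y => by rw [hind]; dsimp only; split_ifs <;> norm_num
  set Y := (H990R2.CT.H (stepM S) r).mulVec ind 0 with hY
  have hHn : ∀ x y, 0 ≤ H990R2.CT.H (stepM S) r x y :=
    fun x y => H990R2.CT.H_nonneg (stepM_nonneg S) hr x y
  have hHs : ∀ x y, 0 ≤ H990R2.CT.H (shiftM b) (a * r) x y :=
    fun x y => H990R2.CT.H_nonneg (shiftM_nonneg b) (mul_nonneg ha hr) x y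
  have hmv : ∀ x, 0 ≤ (H990R2.CT.H (stepM S) r).mulVec ind x := fun x =>
    Finset.sum_nonneg fun y _ => mul_nonneg (hHn x y) (hind0 y)
  have hY1 : Y ≤ 1 := by
    rw [← H990R2.CT.H_row (row_step hB) r 0]
    exact Finset.sum_le_sum fun y _ => by
      have := mul_le_mul_of_nonneg_left (hind1 y) (hHn 0 y)
      linarith
  have h2 : ∑ y, (NormedSpace.exp (r • gen S a b)) 0 y * ind y =
      ∑ z, H990R2.CT.H (shiftM b) (a * r) 0 z * (H990R2.CT.H (stepM S) r).mulVec ind z := by
    rw [exp_gen]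
    simp only [Matrix.mul_apply, Matrix.mulVec, dotProduct, Finset.sum_mul, Finset.mul_sum]
    rw [Finset.sum_comm]
    exact Finset.sum_congr rfl fun z _ => Finset.sum_congr rfl fun y _ => by ring
  have h3 : Real.exp (-(a * r)) * Y ≤ ∑ y, (NormedSpace.exp (r • gen S a b)) 0 y * ind y := by
    rw [h2]
    calc Real.exp (-(a * r)) * Y ≤ H990R2.CT.H (shiftM b) (a * r) 0 0 * Y :=
          mul_le_mul_of_nonneg_right (H_shift_diag b 0 (mul_nonneg ha hr)) (hmv 0)
      _ ≤ _ := Finset.single_le_sum (f := fun z => H990R2.CT.H (shiftM b) (a * r) 0 z *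
          (H990R2.CT.H (stepM S) r).mulVec ind z)
          (fun z _ => mul_nonneg (hHs 0 z) (hmv z)) (mem_univ 0)
  refine le_trans ?_ h3
  have h4 : 1 - a * r ≤ Real.exp (-(a * r)) := by
    have := Real.add_one_le_exp (-(a * r)); linarith
  have h5 : Y - a * r ≤ Real.exp (-(a * r)) * Y := by
    have h6 : (1 - a * r) * Y ≤ Real.exp (-(a * r)) * Y :=
      mul_le_mul_of_nonneg_right h4 (hmv 0)
    have h7 : 0 ≤ a * r := mul_nonneg ha hr
    nlinarith
  refine le_trans ?_ h5
  have h6 : r ≤ Real.exp r := by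
    have := Real.add_one_le_exp r; linarith
  have h7 : a * r ≤ a * Real.exp r := mul_le_mul_of_nonneg_left h6 ha
  have h8 : (1 : ℝ) / 2 ≤ 1 - 1 / (M : ℝ) := by
    have : 1 / (M : ℝ) ≤ 1 / 2 := one_div_le_one_div_of_le (by norm_num) hM'
    linarith
  have h9 : a * Real.exp r ≤ (1 - 1 / (M : ℝ)) * (2 * a * Real.exp r) := by
    have h10 : 0 ≤ a * Real.exp r := mul_nonneg ha (Real.exp_pos r).le
    nlinarith
  have e : (1 - 1 / (M : ℝ)) * (Real.exp (-(r / (1 / (1 - w)))) -
      ((1 / 2) ^ R + 2 * a) * Real.exp r) =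
      (1 - 1 / (M : ℝ)) * (Real.exp (-(r / (1 / (1 - w)))) - (1 / 2) ^ R * Real.exp r) -
      (1 - 1 / (M : ℝ)) * (2 * a * Real.exp r) := by ring
  rw [e]
  linarith

/-- upper bound for the perturbed walk -/
theorem up (h : Y307.Prof.Expo S R M w) (hM : 1 ≤ M) (hw0 : 0 < w) (hw1 : w < 1)
    (hB : Helper394.Bad S T) {a : ℝ} (ha : 0 ≤ a) (b : G) {r : ℝ} (hr : 0 ≤ r) :
    (1 / 2 : ℝ) * ∑ y, |(NormedSpace.exp (r • gen S a b)) 0 y - 1 / (Fintype.card G : ℝ)| ≤
      1 - (1 - 1 / (M : ℝ)) * (1 - Real.exp (-(r / (1 / (1 - w)))) * (1 / w ^ 2)) := by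
  refine Y307.Prof.tv_le_of_min _ (law_row hB a b r 0) _ (fun y => ?_)
  have hG : (0 : ℝ) < Fintype.card G := by exact_mod_cast Fintype.card_pos
  have hent : ∀ x, ((1 - 1 / (M : ℝ)) * (1 - Real.exp (-(r / (1 / (1 - w)))) * (1 / w ^ 2))) /
      (Fintype.card G : ℝ) ≤ H990R2.CT.H (stepM S) r x y := by
    intro x
    have h1 := H990R2.CT.mix_ge (β := w) (B := 1 / w ^ 2)
      (c := (1 - 1 / (M : ℝ)) / Fintype.card G) hr
      (H990R2.CT.H_mulVec_hasSum (stepM S) r (Pi.single y 1) x) (fun k => by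
        rw [Helper394.mat_pow (stepM_mulVec S)]
        have h2 := h.up hM hw0 hw1 k (Pi.single y 1) (fun z => by
          rw [Pi.single_apply]; split_ifs <;> norm_num) x
        rw [Finset.sum_pi_single' y (1 : ℝ) univ] at h2
        simp only [Finset.mem_univ, if_true] at h2
        calc _ = (1 - 1 / (M : ℝ)) * (1 - w ^ k * (1 / w ^ 2)) * (1 / Fintype.card G) := by ring
          _ ≤ _ := h2)
    have h2 : (H990R2.CT.H (stepM S) r).mulVec (Pi.single y 1) x =
        H990R2.CT.H (stepM S) r x y := by simp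
    rw [h2] at h1
    have e1 : (w - 1) * r = -(r / (1 / (1 - w))) := by
      rw [div_div_eq_mul_div, div_one]
      ring
    rw [e1] at h1
    calc _ = (1 - 1 / (M : ℝ)) / Fintype.card G *
          (1 - 1 / w ^ 2 * Real.exp (-(r / (1 / (1 - w))))) := by ring
      _ ≤ _ := h1
  rw [exp_gen, Matrix.mul_apply]
  calc _ = ∑ z, H990R2.CT.H (shiftM b) (a * r) 0 z *
        (((1 - 1 / (M : ℝ)) * (1 - Real.exp (-(r / (1 / (1 - w)))) * (1 / w ^ 2))) /
          (Fintype.card G : ℝ)) := by
        rw [← Finset.sum_mul, H990R2.CT.H_row (shiftM_row b), one_mul]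
    _ ≤ _ := Finset.sum_le_sum fun z _ => mul_le_mul_of_nonneg_left (hent z)
        (H990R2.CT.H_nonneg (shiftM_nonneg b) (mul_nonneg ha hr) 0 z)

/-- the nonzero complex eigenvalues of minus the generator have real part at least `1/4` -/
theorem spec (h : Helper394.Bad S T) {a : ℝ} (ha : 0 ≤ a) (b : G)
    (z : ℂ) (hz : z ∈ spectrum ℂ ((-gen S a b).map Complex.ofReal)) (h0 : z ≠ 0) :
    1 / 4 ≤ z.re := by
  rw [← Matrix.spectrum_toLin', ← Module.End.hasEigenvalue_iff_mem_spectrum] at hz
  obtain ⟨f, hf⟩ := hz.exists_hasEigenvector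
  have hf0 := hf.2
  have hf1 := hf.apply_eq_smul
  rw [Matrix.toLin'_apply] at hf1
  have hS := h.nonempty
  have hSc : (0 : ℝ) < S.card := by exact_mod_cast hS.card_pos
  have hSc' : (S.card : ℂ) ≠ 0 := by exact_mod_cast hSc.ne'
  have h2 : ∀ x, z * f x = f x - (∑ s ∈ S, f (x + s)) / (S.card : ℂ) +
      (a : ℂ) * (f x - f (x + b)) := by
    intro x
    have h3 := congrFun hf1 x
    simp only [Pi.smul_apply, smul_eq_mul] at h3
    rw [← h3]
    simp only [Matrix.mulVec, dotProduct, Matrix.map_apply, Matrix.neg_apply, gen,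
      Matrix.add_apply, Matrix.sub_apply, Matrix.smul_apply, Matrix.one_apply, smul_eq_mul]
    have e : ∀ y, ((-(stepM S x y - (if x = y then 1 else 0) +
        a * (shiftM b x y - (if x = y then 1 else 0))) : ℝ) : ℂ) * f y =
        ((1 + a : ℝ) : ℂ) * (if x = y then f y else 0) -
        (if y - x ∈ S then f y / (S.card : ℂ) else 0) -
        (a : ℂ) * (if y = x + b then f y else 0) := by
      intro y
      simp only [stepM, shiftM]
      split_ifs <;> push_cast <;> ring
    rw [Finset.sum_congr rfl (fun y _ => e y), Finset.sum_sub_distrib, Finset.sum_sub_distrib,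
      ← Finset.mul_sum, ← Finset.mul_sum, Finset.sum_ite_eq univ x, Finset.sum_ite_eq' univ (x + b)]
    simp only [mem_univ, if_true]
    have e2 : ∑ y, (if y - x ∈ S then f y / (S.card : ℂ) else 0) =
        (∑ s ∈ S, f (x + s)) / (S.card : ℂ) := by
      rw [← Finset.sum_filter, Finset.sum_div]
      refine Finset.sum_bij' (fun y _ => y - x) (fun s _ => x + s) ?_ ?_ ?_ ?_ ?_
      · intro y hy; simpa using hy
      · intro s hs; simpa using hs
      · intro y _; simp
      · intro s _; simp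
      · intro y _; simp
    rw [e2]
    push_cast
    ring
  obtain ⟨χ, hχ⟩ := H990R2.CT.exists_char f hf0
  set F := ∑ x, f x * χ x with hF
  have hsh : ∀ s : G, ∑ x, f (x + s) * χ x = χ (-s) * F := by
    intro s
    rw [hF, Finset.mul_sum, ← Equiv.sum_comp (Equiv.subRight s) (fun x => f (x + s) * χ x)]
    refine Finset.sum_congr rfl fun x _ => ?_
    simp only [Equiv.subRight_apply, sub_add_cancel]
    rw [sub_eq_add_neg, AddChar.map_add_eq_mul]
    ring
  have key : z * F = (1 - (∑ s ∈ S, χ (-s)) / (S.card : ℂ) + (a : ℂ) * (1 - χ (-b))) * F := by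
    calc z * F = ∑ x, (z * f x) * χ x := by
          rw [hF, Finset.mul_sum]
          exact Finset.sum_congr rfl fun x _ => by ring
      _ = ∑ x, (f x * χ x - (∑ s ∈ S, f (x + s) * χ x) / (S.card : ℂ) +
            (a : ℂ) * (f x * χ x - f (x + b) * χ x)) := by
          refine Finset.sum_congr rfl fun x _ => ?_
          rw [h2, ← Finset.sum_mul]
          ring
      _ = F - (∑ s ∈ S, χ (-s) * F) / (S.card : ℂ) + (a : ℂ) * (F - χ (-b) * F) := by
          rw [Finset.sum_add_distrib, Finset.sum_sub_distrib, ← Finset.sum_div, Finset.sum_comm,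
            ← Finset.mul_sum, Finset.sum_sub_distrib, hsh b]
          simp only [hsh]
          rw [hF]
      _ = _ := by
          rw [← Finset.sum_mul]
          ring
  have key2 := mul_right_cancel₀ hχ key
  have hχ1 : χ ≠ 1 := by
    intro hχ1
    apply h0
    rw [key2, hχ1]
    simp only [AddChar.one_apply, Finset.sum_const, nsmul_eq_mul, mul_one, sub_self, mul_zero,
      add_zero]
    rw [div_self hSc', sub_self]
  have h4 := h.char χ hχ1
  have e4 : ∑ s ∈ S, χ (-s) = ∑ s ∈ S, χ s := by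
    refine Finset.sum_bij' (fun s _ => -s) (fun s _ => -s) ?_ ?_ ?_ ?_ ?_
    · exact fun s hs => h.neg s hs
    · exact fun s hs => h.neg s hs
    · intro s _; simp
    · intro s _; simp
    · intro s _; rfl
  have h5 : ((∑ s ∈ S, χ s) / (S.card : ℂ)).re ≤ 3 / 4 := by
    refine (Complex.re_le_norm _).trans ?_
    rw [norm_div]
    have : ‖(S.card : ℂ)‖ = (S.card : ℝ) := by simp
    rw [this, div_le_iff₀ hSc]
    exact h4
  have h6 : (χ (-b)).re ≤ 1 := by
    refine (Complex.re_le_norm _).trans ?_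
    exact (Helper394.norm_char_le χ (-b)).le
  rw [key2, e4]
  simp only [Complex.add_re, Complex.sub_re, Complex.one_re, Complex.mul_re, Complex.ofReal_re,
    Complex.ofReal_im, zero_mul, sub_zero]
  nlinarith

theorem spec_nonempty (h : Helper394.Bad S T) {a : ℝ} (ha : 0 ≤ a) {b : G} (hb : b ≠ 0) :
    ∃ z ∈ spectrum ℂ ((-gen S a b).map Complex.ofReal), z ≠ 0 := by
  by_contra hcon
  push Not at hcon
  have h1 := Matrix.trace_eq_sum_roots_charpoly ((-gen S a b).map Complex.ofReal)
  have h2 : ((-gen S a b).map Complex.ofReal).charpoly.roots.sum = 0 := by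
    apply Multiset.sum_eq_zero
    intro z hz
    apply hcon
    exact Matrix.mem_spectrum_of_isRoot_charpoly (Polynomial.isRoot_of_mem_roots hz)
  rw [h2, Matrix.trace] at h1
  have e : ∀ x, ((-gen S a b).map Complex.ofReal) x x = ((1 + a : ℝ) : ℂ) := by
    intro x
    simp only [Matrix.map_apply, Matrix.neg_apply, gen, Matrix.add_apply, Matrix.sub_apply,
      Matrix.smul_apply, Matrix.one_apply_eq, smul_eq_mul, stepM, shiftM, sub_self,
      if_neg h.zero]
    have : ¬ (x = x + b) := by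
      intro hx
      exact hb (by simpa using hx.symm)
    rw [if_neg this]
    push_cast
    ring
  simp only [Matrix.diag_apply, e, Finset.sum_const, Finset.card_univ, nsmul_eq_mul] at h1
  have h3 : (Fintype.card G : ℂ) * ((1 + a : ℝ) : ℂ) ≠ 0 := by
    apply mul_ne_zero
    · exact_mod_cast Fintype.card_ne_zero
    · have : (1 + a : ℝ) ≠ 0 := by linarith
      exact_mod_cast this
  exact h3 h1

end walk

end

end Pool.Agent.X127.NR
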